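import Pool.Agent.Helper5.TP.Two

/-!
# Project TD (MP_277c78_nt): the Poisson mean at two close points
-/

set_option autoImplicit false

namespace Pool.Agent.Helper5.TP

open Finset Filter Topology

/-- the difference of the means at two points `≥ m` -/
theorem psi_abs {t : ℕ → ℝ} {C : ℝ} (ht0 : ∀ k, 0 ≤ t k) (ht : ∀ k : ℕ, t k ≤ C / ((k : ℝ) + 1))
    (hta : Antitone t) {m u v D : ℝ} (hm : 0 < m) (hu : m ≤ u) (hv : m ≤ v) (hD : |u - v| ≤ D) :
    |Real.exp (-u) * Phi t u - Real.exp (-v) * Phi t v| ≤ (C ^ 2 + 1) * (D / (m * √m)) := by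
  have key : ∀ x y : ℝ, m ≤ x → x ≤ y → y - x ≤ D →
      |Real.exp (-x) * Phi t x - Real.exp (-y) * Phi t y| ≤ (C ^ 2 + 1) * (D / (m * √m)) := by
    intro x y hx hxy hxD
    have hx0 : 0 < x := hm.trans_le hx
    have h1 := psi_var ht0 ht hx0 hxy
    have h2 := psi_anti ht0 ht hta hx0.le hxy
    have hs : 0 < √m := Real.sqrt_pos.2 hm
    have h3 : (y - x) / (x * √x) ≤ D / (m * √m) := by
      apply div_le_div₀ (by linarith) hxD (by positivity)
      exact mul_le_mul hx (Real.sqrt_le_sqrt hx) hs.le hx0.le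
    have h4 := mul_le_mul_of_nonneg_left h3 (show 0 ≤ C ^ 2 + 1 by positivity)
    rw [abs_of_nonneg (by linarith)]
    linarith
  rw [abs_le] at hD
  rcases le_total u v with h | h
  · exact key u v hu h (by linarith)
  · rw [abs_sub_comm]
    exact key v u hv h (by linarith)

theorem psi_ratio {t : ℕ → ℝ} {C : ℝ} (ht0 : ∀ k, 0 ≤ t k) (ht : ∀ k : ℕ, t k ≤ C / ((k : ℝ) + 1))
    (hta : Antitone t) {c l1 : ℝ} (hc : 0 < c)
    (hlow : ∀ l : ℝ, l1 ≤ l → c / (8 * l) ≤ Real.exp (-l) * Phi t l) {u v : ℕ → ℝ}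
    (hv : Tendsto v atTop atTop) {D : ℝ} (hD : ∀ᶠ n in atTop, |u n - v n| ≤ D) :
    Tendsto (fun n => (Real.exp (-u n) * Phi t (u n)) / (Real.exp (-v n) * Phi t (v n))) atTop
      (𝓝 1) := by
  have h0 : Tendsto (fun n => 16 * (C ^ 2 + 1) * D / c / √(v n - D)) atTop (𝓝 0) := by
    apply Tendsto.div_atTop tendsto_const_nhds
    exact Real.tendsto_sqrt_atTop.comp (tendsto_atTop_add_const_right atTop (-D) hv)
  rw [tendsto_iff_norm_sub_tendsto_zero]
  refine squeeze_zero' (Eventually.of_forall fun n => norm_nonneg _) ?_ h0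
  filter_upwards [hD, hv.eventually_ge_atTop (2 * D + 1), hv.eventually_ge_atTop l1,
    hv.eventually_ge_atTop 1] with n h1 h2 h3 h4
  have hD0 : 0 ≤ D := (abs_nonneg _).trans h1
  set m := v n - D with hm
  have hm0 : 0 < m := by rw [hm]; linarith
  have hmv : v n ≤ 2 * m := by rw [hm]; linarith
  have hmu : m ≤ u n := by
    have := (abs_le.1 h1).1
    rw [hm]
    linarith
  have hmv' : m ≤ v n := by rw [hm]; linarith
  have h5 := psi_abs ht0 ht hta hm0 hmu hmv' h1
  have h6 := hlow _ h3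
  have hv0 : 0 < v n := by linarith
  have hpos : 0 < Real.exp (-v n) * Phi t (v n) := lt_of_lt_of_le (by positivity) h6
  have hs : 0 < √m := Real.sqrt_pos.2 hm0
  have hss : √m * √m = m := Real.mul_self_sqrt hm0.le
  rw [Real.norm_eq_abs]
  have e1 : (Real.exp (-u n) * Phi t (u n)) / (Real.exp (-v n) * Phi t (v n)) - 1 =
      (Real.exp (-u n) * Phi t (u n) - Real.exp (-v n) * Phi t (v n)) /
        (Real.exp (-v n) * Phi t (v n)) := by
    rw [sub_div, div_self hpos.ne']
  rw [e1, abs_div, abs_of_pos hpos, div_le_iff₀ hpos]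
  refine h5.trans ?_
  have h7 : 16 * (C ^ 2 + 1) * D / c / √m * (c / (8 * v n)) ≤
      16 * (C ^ 2 + 1) * D / c / √m * (Real.exp (-v n) * Phi t (v n)) :=
    mul_le_mul_of_nonneg_left h6 (by positivity)
  refine le_trans ?_ h7
  have e2 : 16 * (C ^ 2 + 1) * D / c / √m * (c / (8 * v n)) = (C ^ 2 + 1) * (2 * D / (v n * √m)) := by
    field_simp
    try ring
  rw [e2]
  apply mul_le_mul_of_nonneg_left _ (by positivity)
  rw [div_le_div_iff₀ (by positivity) (by positivity)]
  have h8 : D * (v n * √m) ≤ D * ((2 * m) * √m) := by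
    apply mul_le_mul_of_nonneg_left _ hD0
    exact mul_le_mul_of_nonneg_right hmv hs.le
  linarith

end Pool.Agent.Helper5.TP
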