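import Pool.Agent.Helper26.TD.Turan

/-!
# Project TD (MP_277c78_nt): `td r k ≤ r / (k + 1)`
-/

set_option autoImplicit false

namespace Pool.Agent.Helper5.TP

open Finset Filter Topology
open Pool.Agent.Helper26.TD

theorem ex_mul_le (r k n : ℕ) : ex r k n * (n - k) ≤ r * n.choose (k + 1) := by
  classical
  obtain ⟨F, hF, hc⟩ := exists_ex r k n
  rw [← hc]
  have h1 : ∑ T ∈ powersetCard (k + 1) (univ : Finset (Fin n)), (F.filter fun e => e ⊆ T).card ≤
      r * n.choose (k + 1) := by
    calc ∑ T ∈ powersetCard (k + 1) (univ : Finset (Fin n)), (F.filter fun e => e ⊆ T).card ≤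
          ∑ _T ∈ powersetCard (k + 1) (univ : Finset (Fin n)), r :=
          sum_le_sum fun T hT => by
            have h := (good_iff.1 hF).2 T (mem_powersetCard.1 hT).2 (F.filter fun e => e ⊆ T)
              (filter_subset _ _) fun e he => (mem_filter.1 he).2
            exact h
      _ = r * n.choose (k + 1) := by
          rw [sum_const, card_powersetCard, card_univ, Fintype.card_fin, smul_eq_mul, mul_comm]
  refine le_trans ?_ h1
  have h2 : ∀ T : Finset (Fin n), (F.filter fun e => e ⊆ T).card = ∑ e ∈ F, if e ⊆ T then 1 else 0 :=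
    fun T => card_filter _ _
  rw [sum_congr rfl fun T _ => h2 T, sum_comm, ← smul_eq_mul, ← sum_const]
  refine sum_le_sum fun e he => ?_
  rw [← card_filter]
  have h3 : (eᶜ : Finset (Fin n)).card = n - k := by
    rw [card_compl, Fintype.card_fin, hF.1 e he]
  rw [← h3]
  refine card_le_card_of_injOn (fun x => insert x e) (fun x hx => ?_) (fun x hx y hy h => ?_)
  · rw [mem_coe, mem_compl] at hx
    rw [mem_coe, mem_filter, mem_powersetCard]
    exact ⟨⟨subset_univ _, by rw [card_insert_of_notMem hx, hF.1 e he]⟩, subset_insert _ _⟩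
  · rw [mem_coe, mem_compl] at hx hy
    have hx' : x ∈ insert y e := by
      have h' : insert x e = insert y e := h
      rw [← h']
      exact mem_insert_self _ _
    rcases mem_insert.1 hx' with h4 | h4
    · exact h4
    · exact absurd h4 hx

theorem td_le_C (r k : ℕ) : td r k ≤ (r : ℝ) / ((k : ℝ) + 1) := by
  refine le_of_tendsto (tendsto_td r k) ?_
  filter_upwards [eventually_ge_atTop (k + 1)] with n hn
  have c1 : (0 : ℝ) < (n.choose k : ℝ) := by exact_mod_cast Nat.choose_pos (by omega)
  rw [div_le_div_iff₀ c1 (by positivity)]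
  have h1 := ex_mul_le r k n
  have h2 := Nat.choose_succ_right_eq n k
  have h3 : (ex r k n * (k + 1)) * (n - k) ≤ (r * n.choose k) * (n - k) := by
    calc (ex r k n * (k + 1)) * (n - k) = (ex r k n * (n - k)) * (k + 1) := by ring
      _ ≤ (r * n.choose (k + 1)) * (k + 1) := Nat.mul_le_mul_right _ h1
      _ = r * (n.choose (k + 1) * (k + 1)) := by ring
      _ = r * (n.choose k * (n - k)) := by rw [h2]
      _ = (r * n.choose k) * (n - k) := by ring
  have h4 : ex r k n * (k + 1) ≤ r * n.choose k := Nat.le_of_mul_le_mul_right h3 (by omega)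
  exact_mod_cast h4

end Pool.Agent.Helper5.TP
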