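import Pool.Agent.Helper5.TP.Shift

/-!
# Project TD (MP_277c78_nt): the mean of `t` at a Poisson variable as a function of its mean
-/

set_option autoImplicit false

namespace Pool.Agent.Helper5.TP

open Finset Filter Topology

theorem phi_hasDerivAt {t : ℕ → ℝ} {B : ℝ} (ht : ∀ k, |t k| ≤ B) (u : ℝ) :
    HasDerivAt (Phi t) (Phi (fun k => t (k + 1)) u) u := by
  have hB : 0 ≤ B := (abs_nonneg _).trans (ht 0)
  set R : ℝ := |u| + 1 with hR
  have hR0 : 0 ≤ R := by positivity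
  -- the bound
  have hs : Summable fun n : ℕ => B * ((n : ℝ) * R ^ (n - 1) / (n.factorial : ℝ)) := by
    apply Summable.mul_left
    rw [← summable_nat_add_iff 1]
    refine (Real.summable_pow_div_factorial R).congr fun n => ?_
    rw [Nat.factorial_succ, Nat.add_sub_cancel]
    push_cast
    have : (n : ℝ) + 1 ≠ 0 := by positivity
    have : (n.factorial : ℝ) ≠ 0 := by positivity
    field_simp
  have hu : u ∈ Set.Ioo (-R) R := by
    rw [Set.mem_Ioo, ← abs_lt]
    linarith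
  have h1 : HasDerivAt (fun z : ℝ => ∑' n : ℕ, t n * z ^ n / (n.factorial : ℝ))
      (∑' n : ℕ, t n * ((n : ℝ) * u ^ (n - 1)) / (n.factorial : ℝ)) u := by
    refine hasDerivAt_tsum_of_isPreconnected (g := fun (n : ℕ) (z : ℝ) => t n * z ^ n / (n.factorial : ℝ))
      (g' := fun (n : ℕ) (z : ℝ) => t n * ((n : ℝ) * z ^ (n - 1)) / (n.factorial : ℝ))
      hs isOpen_Ioo isPreconnected_Ioo (fun n z _ => ?_) (fun n z hz => ?_) hu (summable_phi ht u) hu
    · exact ((hasDerivAt_pow n z).const_mul (t n)).div_const _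
    · rw [Set.mem_Ioo, ← abs_lt] at hz
      rw [Real.norm_eq_abs, abs_div, abs_mul, abs_mul, abs_pow, Nat.abs_cast, Nat.abs_cast,
        mul_div_assoc]
      apply mul_le_mul (ht n) _ (by positivity) hB
      apply div_le_div_of_nonneg_right _ (by positivity)
      apply mul_le_mul_of_nonneg_left _ (by positivity)
      exact pow_le_pow_left₀ (abs_nonneg z) hz.le _
  have h2 : (∑' n : ℕ, t n * ((n : ℝ) * u ^ (n - 1)) / (n.factorial : ℝ)) = Phi (fun k => t (k + 1)) u := by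
    have h3 : Summable fun n : ℕ => t n * ((n : ℝ) * u ^ (n - 1)) / (n.factorial : ℝ) := by
      refine Summable.of_norm_bounded hs fun n => ?_
      rw [Set.mem_Ioo, ← abs_lt] at hu
      rw [Real.norm_eq_abs, abs_div, abs_mul, abs_mul, abs_pow, Nat.abs_cast, Nat.abs_cast,
        mul_div_assoc]
      apply mul_le_mul (ht n) _ (by positivity) hB
      apply div_le_div_of_nonneg_right _ (by positivity)
      apply mul_le_mul_of_nonneg_left _ (by positivity)
      exact pow_le_pow_left₀ (abs_nonneg u) hu.le _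
    rw [h3.tsum_eq_zero_add]
    simp only [Nat.cast_zero, zero_mul, mul_zero, zero_div, zero_add]
    unfold Phi
    refine tsum_congr fun n => ?_
    rw [Nat.factorial_succ, Nat.add_sub_cancel]
    push_cast
    have : (n : ℝ) + 1 ≠ 0 := by positivity
    have : (n.factorial : ℝ) ≠ 0 := by positivity
    field_simp
  rw [← h2]
  exact h1

theorem psi_hasDerivAt {t : ℕ → ℝ} {B : ℝ} (ht : ∀ k, |t k| ≤ B) (u : ℝ) :
    HasDerivAt (fun u => Real.exp (-u) * Phi t u)
      (-(Real.exp (-u) * (Phi t u - Phi (fun k => t (k + 1)) u))) u := by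
  have h1 : HasDerivAt (fun u : ℝ => Real.exp (-u)) (-Real.exp (-u)) u := by
    have := (hasDerivAt_neg u).exp
    simpa using this
  refine (h1.mul (phi_hasDerivAt ht u)).congr_deriv ?_
  ring

theorem phi_mono {s t : ℕ → ℝ} {B : ℝ} (hs : ∀ k, |s k| ≤ B) (ht : ∀ k, |t k| ≤ B) (h : ∀ k, s k ≤ t k)
    {u : ℝ} (hu : 0 ≤ u) : Phi s u ≤ Phi t u := by
  refine Summable.tsum_le_tsum (fun k => ?_) (summable_phi hs u) (summable_phi ht u)
  exact div_le_div_of_nonneg_right (mul_le_mul_of_nonneg_right (h k) (by positivity)) (by positivity)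

theorem abs_le_C {t : ℕ → ℝ} {C : ℝ} (ht0 : ∀ k, 0 ≤ t k) (ht : ∀ k : ℕ, t k ≤ C / ((k : ℝ) + 1)) :
    0 ≤ C ∧ ∀ k, |t k| ≤ C := by
  have hC : 0 ≤ C := by
    have := (ht0 0).trans (ht 0)
    simpa using this
  refine ⟨hC, fun k => ?_⟩
  rw [abs_of_nonneg (ht0 k)]
  refine (ht k).trans (div_le_self hC ?_)
  have : (0 : ℝ) ≤ k := Nat.cast_nonneg k
  linarith

/-- the mean is antitone -/
theorem psi_anti {t : ℕ → ℝ} {C : ℝ} (ht0 : ∀ k, 0 ≤ t k) (ht : ∀ k : ℕ, t k ≤ C / ((k : ℝ) + 1))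
    (hta : Antitone t) {u v : ℝ} (hu : 0 ≤ u) (huv : u ≤ v) :
    Real.exp (-v) * Phi t v ≤ Real.exp (-u) * Phi t u := by
  obtain ⟨_, hB⟩ := abs_le_C ht0 ht
  rcases huv.eq_or_lt with rfl | huv
  · exact le_rfl
  obtain ⟨ξ, hξ, h⟩ := exists_hasDerivAt_eq_slope (fun u => Real.exp (-u) * Phi t u)
    (fun u => -(Real.exp (-u) * (Phi t u - Phi (fun k => t (k + 1)) u))) huv
    (fun x _ => (psi_hasDerivAt hB x).continuousAt.continuousWithinAt) (fun x _ => psi_hasDerivAt hB x)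
  rw [eq_div_iff (by linarith)] at h
  have h1 : Phi (fun k => t (k + 1)) ξ ≤ Phi t ξ :=
    phi_mono (fun k => hB (k + 1)) hB (fun k => hta (Nat.le_succ k)) (by linarith [hξ.1])
  have h2 : 0 ≤ Real.exp (-ξ) * (Phi t ξ - Phi (fun k => t (k + 1)) ξ) :=
    mul_nonneg (Real.exp_pos _).le (by linarith)
  have h3 : 0 ≤ Real.exp (-ξ) * (Phi t ξ - Phi (fun k => t (k + 1)) ξ) * (v - u) :=
    mul_nonneg h2 (by linarith)
  linarith

/-- the mean varies slowly -/
theorem psi_var {t : ℕ → ℝ} {C : ℝ} (ht0 : ∀ k, 0 ≤ t k) (ht : ∀ k : ℕ, t k ≤ C / ((k : ℝ) + 1))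
    {u v : ℝ} (hu : 0 < u) (huv : u ≤ v) :
    Real.exp (-u) * Phi t u ≤ Real.exp (-v) * Phi t v + (C ^ 2 + 1) * ((v - u) / (u * √u)) := by
  obtain ⟨_, hB⟩ := abs_le_C ht0 ht
  rcases huv.eq_or_lt with rfl | huv
  · simp
  obtain ⟨ξ, hξ, h⟩ := exists_hasDerivAt_eq_slope (fun u => Real.exp (-u) * Phi t u)
    (fun u => -(Real.exp (-u) * (Phi t u - Phi (fun k => t (k + 1)) u))) huv
    (fun x _ => (psi_hasDerivAt hB x).continuousAt.continuousWithinAt) (fun x _ => psi_hasDerivAt hB x)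
  rw [eq_div_iff (by linarith)] at h
  have hξ0 : 0 < ξ := hu.trans hξ.1
  have hs : 0 < √u := Real.sqrt_pos.2 hu
  have hs' : √u ≤ √ξ := Real.sqrt_le_sqrt hξ.1.le
  have h1 := shift_one ht0 ht hξ0
  have h2 : Real.exp (-ξ) * (Phi t ξ - Phi (fun k => t (k + 1)) ξ) ≤ (C ^ 2 + 1) * (1 / (u * √u)) := by
    calc Real.exp (-ξ) * (Phi t ξ - Phi (fun k => t (k + 1)) ξ) ≤
          Real.exp (-ξ) * ((C ^ 2 + 1) * (Real.exp ξ / (ξ * √ξ))) :=
          mul_le_mul_of_nonneg_left h1 (Real.exp_pos _).le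
      _ = (C ^ 2 + 1) * ((Real.exp (-ξ) * Real.exp ξ) / (ξ * √ξ)) := by ring
      _ = (C ^ 2 + 1) * (1 / (ξ * √ξ)) := by rw [← Real.exp_add, neg_add_cancel, Real.exp_zero]
      _ ≤ (C ^ 2 + 1) * (1 / (u * √u)) := by
          apply mul_le_mul_of_nonneg_left _ (by positivity)
          apply one_div_le_one_div_of_le (by positivity)
          exact mul_le_mul hξ.1.le hs' hs.le hξ0.le
  have h3 := mul_le_mul_of_nonneg_right h2 (show 0 ≤ v - u by linarith)
  have h4 : (C ^ 2 + 1) * (1 / (u * √u)) * (v - u) = (C ^ 2 + 1) * ((v - u) / (u * √u)) := by ring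
  have h5 : -(Real.exp (-ξ) * (Phi t ξ - Phi (fun k => t (k + 1)) ξ)) * (v - u) =
      -(Real.exp (-ξ) * (Phi t ξ - Phi (fun k => t (k + 1)) ξ) * (v - u)) := by ring
  linarith

/-- `J` shifts -/
theorem shift_J {C u : ℝ} (hu : 0 < u) (J : ℕ) : ∀ {t : ℕ → ℝ}, (∀ k, 0 ≤ t k) →
    (∀ k : ℕ, t k ≤ C / ((k : ℝ) + 1)) →
    Phi t u - Phi (fun k => t (k + J)) u ≤ J * ((C ^ 2 + 1) * (Real.exp u / (u * √u))) := by
  induction J with
  | zero =>
    intro t _ _
    simp
  | succ J ih =>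
    intro t ht0 ht
    obtain ⟨hC, _⟩ := abs_le_C ht0 ht
    have h1 := shift_one ht0 ht hu
    have h2 := ih (t := fun k => t (k + 1)) (fun k => ht0 (k + 1)) (fun k => by
      refine (ht (k + 1)).trans ?_
      push_cast
      apply div_le_div_of_nonneg_left hC (by positivity)
      linarith)
    have e : (fun k => t (k + (J + 1))) = fun k => (fun k => t (k + 1)) (k + J) := by
      funext k
      rfl
    rw [e]
    push_cast
    linarith

/-- the terms beyond `2 u` -/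
theorem head_ge {t : ℕ → ℝ} {C u : ℝ} (ht0 : ∀ k, 0 ≤ t k) (ht : ∀ k : ℕ, t k ≤ C / ((k : ℝ) + 1))
    (hu : 0 < u) (J : ℕ) :
    Phi (fun k => t (k + J)) u - C * (Real.exp u / u ^ 2) ≤
      ∑ k ∈ range (⌊2 * u⌋₊ + 1), t (k + J) * u ^ k / (k.factorial : ℝ) := by
  obtain ⟨hC, hB⟩ := abs_le_C ht0 ht
  have h0 : HasSum (fun k : ℕ => t (k + J) * u ^ k / (k.factorial : ℝ)) (Phi (fun k => t (k + J)) u) :=
    (summable_phi (t := fun k => t (k + J)) (fun k => hB (k + J)) u).hasSum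
  have h1 : HasSum (fun k : ℕ => if k ∈ range (⌊2 * u⌋₊ + 1) then t (k + J) * u ^ k / (k.factorial : ℝ) else 0)
      (∑ k ∈ range (⌊2 * u⌋₊ + 1), t (k + J) * u ^ k / (k.factorial : ℝ)) := by
    have h : HasSum (fun k : ℕ => if k ∈ range (⌊2 * u⌋₊ + 1) then t (k + J) * u ^ k / (k.factorial : ℝ) else 0)
        (∑ k ∈ range (⌊2 * u⌋₊ + 1),
          if k ∈ range (⌊2 * u⌋₊ + 1) then t (k + J) * u ^ k / (k.factorial : ℝ) else 0) :=
      hasSum_sum_of_ne_finset_zero (fun k hk => if_neg hk)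
    rwa [Finset.sum_congr rfl fun k hk => if_pos hk] at h
  have h2 := h1.add ((hasSum_var hu).mul_left (C / u))
  have h3 := hasSum_le (fun k => ?_) h0 h2
  · have e : C / u * (Real.exp u / u) = C * (Real.exp u / u ^ 2) := by
      field_simp
    rw [e] at h3
    linarith
  · have hp : 0 ≤ u ^ k / (k.factorial : ℝ) := by positivity
    by_cases hk : k ∈ range (⌊2 * u⌋₊ + 1)
    · rw [if_pos hk]
      have : 0 ≤ C / u * ((1 - (k : ℝ) / u) ^ 2 * (u ^ k / (k.factorial : ℝ))) := by positivity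
      linarith
    · rw [if_neg hk, zero_add, mul_div_assoc, ← mul_assoc]
      apply mul_le_mul_of_nonneg_right _ hp
      have hk2 : 2 * u < k := by
        rw [mem_range, not_lt] at hk
        exact (Nat.lt_floor_add_one (2 * u)).trans_le (by exact_mod_cast hk)
      have h4 : t (k + J) ≤ C / u := by
        refine (ht (k + J)).trans ?_
        push_cast
        apply div_le_div_of_nonneg_left hC hu
        have : (0 : ℝ) ≤ J := Nat.cast_nonneg J
        linarith
      have h5 : 1 ≤ (1 - (k : ℝ) / u) ^ 2 := by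
        have : 2 < (k : ℝ) / u := by
          rw [lt_div_iff₀ hu]
          exact hk2
        nlinarith
      have : 0 ≤ C / u := by positivity
      nlinarith

end Pool.Agent.Helper5.TP
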