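import Mathlib

/-!
# Project TD (MP_277c78_nt): Poisson smoothing of a sequence `t` with `0 ≤ t k ≤ C / (k + 1)`

`Phi t u = ∑ k, t k * u ^ k / k!`; `exp (-u) * Phi t u` is the mean of `t` at a Poisson variable with mean `u`.
-/

set_option autoImplicit false

namespace Pool.Agent.Helper5.TP

open Finset Filter Topology

/-- the exponential generating function -/
noncomputable def Phi (t : ℕ → ℝ) (u : ℝ) : ℝ := ∑' k : ℕ, t k * u ^ k / (k.factorial : ℝ)

theorem summable_phi {t : ℕ → ℝ} {B : ℝ} (ht : ∀ k, |t k| ≤ B) (u : ℝ) :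
    Summable fun k : ℕ => t k * u ^ k / (k.factorial : ℝ) := by
  have h1 : Summable fun k : ℕ => B * (|u| ^ k / (k.factorial : ℝ)) :=
    (Real.summable_pow_div_factorial |u|).mul_left B
  refine Summable.of_norm_bounded h1 fun k => ?_
  rw [Real.norm_eq_abs, abs_div, abs_mul, abs_pow, Nat.abs_cast, mul_div_assoc]
  exact mul_le_mul_of_nonneg_right (ht k) (by positivity)

theorem hasSum_p (u : ℝ) : HasSum (fun k : ℕ => u ^ k / (k.factorial : ℝ)) (Real.exp u) := by
  have h := NormedSpace.exp_series_hasSum_exp' (𝕂 := ℝ) (𝔸 := ℝ) u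
  rw [← Real.exp_eq_exp_ℝ] at h
  refine h.congr_fun fun k => ?_
  rw [smul_eq_mul, div_eq_inv_mul]

/-- `∑ k * u ^ k / k! = u * exp u` -/
theorem hasSum_kp (u : ℝ) :
    HasSum (fun k : ℕ => (k : ℝ) * (u ^ k / (k.factorial : ℝ))) (u * Real.exp u) := by
  rw [← hasSum_nat_add_iff' 1]
  simp only [Finset.sum_range_one, Nat.cast_zero, zero_mul, sub_zero]
  refine ((hasSum_p u).mul_left u).congr_fun fun k => ?_
  rw [Nat.factorial_succ]
  push_cast
  have : (k : ℝ) + 1 ≠ 0 := by positivity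
  have : (k.factorial : ℝ) ≠ 0 := by positivity
  field_simp
  try ring

/-- `∑ k ^ 2 * u ^ k / k! = (u ^ 2 + u) * exp u` -/
theorem hasSum_kkp (u : ℝ) :
    HasSum (fun k : ℕ => (k : ℝ) ^ 2 * (u ^ k / (k.factorial : ℝ))) ((u ^ 2 + u) * Real.exp u) := by
  rw [← hasSum_nat_add_iff' 1]
  simp only [Finset.sum_range_one, Nat.cast_zero, ne_eq, OfNat.ofNat_ne_zero, not_false_eq_true,
    zero_pow, zero_mul, sub_zero]
  have h := ((hasSum_kp u).mul_left u).add ((hasSum_p u).mul_left u)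
  have e : (u ^ 2 + u) * Real.exp u = u * (u * Real.exp u) + u * Real.exp u := by ring
  rw [e]
  refine h.congr_fun fun k => ?_
  rw [Nat.factorial_succ]
  push_cast
  have : (k : ℝ) + 1 ≠ 0 := by positivity
  have : (k.factorial : ℝ) ≠ 0 := by positivity
  field_simp
  try ring

/-- the variance -/
theorem hasSum_var {u : ℝ} (hu : 0 < u) :
    HasSum (fun k : ℕ => (1 - (k : ℝ) / u) ^ 2 * (u ^ k / (k.factorial : ℝ))) (Real.exp u / u) := by
  have h := ((hasSum_p u).sub ((hasSum_kp u).mul_left (2 / u))).add ((hasSum_kkp u).mul_left (1 / u ^ 2))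
  have e : Real.exp u / u = Real.exp u - 2 / u * (u * Real.exp u) +
      1 / u ^ 2 * ((u ^ 2 + u) * Real.exp u) := by
    field_simp
    ring
  rw [e]
  refine h.congr_fun fun k => ?_
  field_simp
  try ring

/-- `∑ u ^ k / k! / ((k + 1) (k + 2)) ≤ exp u / u ^ 2` -/
theorem hasSum_two {u : ℝ} (hu : 0 < u) :
    HasSum (fun k : ℕ => 1 / (((k : ℝ) + 1) * ((k : ℝ) + 2)) * (u ^ k / (k.factorial : ℝ)))
      ((Real.exp u - 1 - u) / u ^ 2) := by
  have h1 := (hasSum_nat_add_iff' (f := fun k : ℕ => u ^ k / (k.factorial : ℝ)) 2).2 (hasSum_p u)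
  have h2 := h1.mul_left (1 / u ^ 2)
  have e : (Real.exp u - 1 - u) / u ^ 2 = 1 / u ^ 2 * (Real.exp u - ∑ i ∈ range 2, u ^ i / (i.factorial : ℝ)) := by
    simp [Finset.sum_range_succ]
    ring
  rw [e]
  refine h2.congr_fun fun k => ?_
  rw [Nat.factorial_succ, Nat.factorial_succ]
  push_cast
  have : (k : ℝ) + 1 ≠ 0 := by positivity
  have : (k : ℝ) + 2 ≠ 0 := by positivity
  have : (k : ℝ) + 1 + 1 ≠ 0 := by positivity
  have : (k.factorial : ℝ) ≠ 0 := by positivity
  field_simp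
  try ring

theorem shift_sum {t : ℕ → ℝ} {B u : ℝ} (ht : ∀ k, |t k| ≤ B) (hu : 0 < u) :
    HasSum (fun k : ℕ => t k * (1 - (k : ℝ) / u) * (u ^ k / (k.factorial : ℝ)))
      (Phi t u - Phi (fun k => t (k + 1)) u) := by
  have h0 : HasSum (fun k : ℕ => t k * u ^ k / (k.factorial : ℝ)) (Phi t u) := (summable_phi ht u).hasSum
  have h1 : HasSum (fun k : ℕ => t (k + 1) * u ^ k / (k.factorial : ℝ)) (Phi (fun k => t (k + 1)) u) :=
    (summable_phi (t := fun k => t (k + 1)) (fun k => ht (k + 1)) u).hasSum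
  have h2 : HasSum (fun k : ℕ => t k * ((k : ℝ) / u) * (u ^ k / (k.factorial : ℝ)))
      (Phi (fun k => t (k + 1)) u) := by
    rw [← hasSum_nat_add_iff' 1]
    simp only [Finset.sum_range_one, Nat.cast_zero, zero_div, mul_zero, zero_mul, sub_zero]
    refine h1.congr_fun fun k => ?_
    rw [Nat.factorial_succ]
    push_cast
    have : (k : ℝ) + 1 ≠ 0 := by positivity
    have : (k.factorial : ℝ) ≠ 0 := by positivity
    field_simp
    try ring
  refine (h0.sub h2).congr_fun fun k => ?_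
  ring

/-- one shift costs `O(exp u * u ^ (-3 / 2))` -/
theorem shift_one {t : ℕ → ℝ} {C u : ℝ} (ht0 : ∀ k, 0 ≤ t k) (ht : ∀ k : ℕ, t k ≤ C / ((k : ℝ) + 1))
    (hu : 0 < u) :
    Phi t u - Phi (fun k => t (k + 1)) u ≤ (C ^ 2 + 1) * (Real.exp u / (u * √u)) := by
  have hC : 0 ≤ C := by
    have := (ht0 0).trans (ht 0)
    simpa using this
  have hB : ∀ k, |t k| ≤ C := fun k => by
    rw [abs_of_nonneg (ht0 k)]
    refine (ht k).trans (div_le_self hC ?_)
    have : (0 : ℝ) ≤ k := Nat.cast_nonneg k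
    linarith
  have hs : 0 < √u := Real.sqrt_pos.2 hu
  have hss : √u * √u = u := Real.mul_self_sqrt hu.le
  have h1 := shift_sum hB hu
  have h2 := ((hasSum_two hu).mul_left (√u * C ^ 2)).add ((hasSum_var hu).mul_left (1 / (2 * √u)))
  have h3 := hasSum_le (fun k => ?_) h1 h2
  · refine h3.trans ?_
    have h4 : √u * C ^ 2 * ((Real.exp u - 1 - u) / u ^ 2) ≤ C ^ 2 * (Real.exp u / (u * √u)) := by
      have h5 : √u * C ^ 2 * ((Real.exp u - 1 - u) / u ^ 2) ≤ √u * C ^ 2 * (Real.exp u / u ^ 2) := by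
        apply mul_le_mul_of_nonneg_left _ (by positivity)
        apply div_le_div_of_nonneg_right _ (by positivity)
        linarith
      refine h5.trans (le_of_eq ?_)
      have h13 : √u * C ^ 2 * (Real.exp u / u ^ 2) = C ^ 2 * (Real.exp u * (√u / u ^ 2)) := by ring
      have h14 : √u / u ^ 2 = 1 / (u * √u) := by
        rw [div_eq_div_iff (by positivity) (by positivity)]
        calc √u * (u * √u) = (√u * √u) * u := by ring
          _ = 1 * u ^ 2 := by rw [hss]; ring
      rw [h13, h14, mul_one_div]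
    have h6 : 1 / (2 * √u) * (Real.exp u / u) ≤ 1 * (Real.exp u / (u * √u)) := by
      have : 1 / (2 * √u) * (Real.exp u / u) = (1 / 2) * (Real.exp u / (u * √u)) := by
        field_simp
      rw [this]
      apply mul_le_mul_of_nonneg_right _ (by positivity)
      norm_num
    rw [add_mul]
    exact add_le_add h4 h6
  · have hk : (0 : ℝ) ≤ k := Nat.cast_nonneg k
    have hp : 0 ≤ u ^ k / (k.factorial : ℝ) := by positivity
    rw [← mul_assoc, ← mul_assoc, ← add_mul]
    apply mul_le_mul_of_nonneg_right _ hp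
    set w := 1 - (k : ℝ) / u
    have h7 : t k ^ 2 ≤ 2 * (C ^ 2 * (1 / (((k : ℝ) + 1) * ((k : ℝ) + 2)))) := by
      have h8 : t k ^ 2 ≤ (C / ((k : ℝ) + 1)) ^ 2 := pow_le_pow_left₀ (ht0 k) (ht k) 2
      refine h8.trans ?_
      rw [div_pow, mul_one_div, ← mul_div_assoc, div_le_div_iff₀ (by positivity) (by positivity)]
      have : 0 ≤ C ^ 2 := sq_nonneg C
      nlinarith [mul_nonneg this hk, mul_nonneg this (mul_nonneg hk hk)]
    have h9 : t k * w ≤ √u / 2 * t k ^ 2 + 1 / (2 * √u) * w ^ 2 := by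
      have h10 : 0 ≤ (√u * t k - w) ^ 2 := sq_nonneg _
      have h11 : √u / 2 * t k ^ 2 + 1 / (2 * √u) * w ^ 2 - t k * w =
          (√u * t k - w) ^ 2 / (2 * √u) := by
        field_simp
        ring
      have : 0 ≤ (√u * t k - w) ^ 2 / (2 * √u) := by positivity
      linarith
    have h12 : √u / 2 * t k ^ 2 ≤ √u * C ^ 2 * (1 / (((k : ℝ) + 1) * ((k : ℝ) + 2))) := by
      have := mul_le_mul_of_nonneg_left h7 (show 0 ≤ √u / 2 by positivity)
      linarith
    linarith

end Pool.Agent.Helper5.TP
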