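import Pool.Agent.Helper5.TP.Pois

/-!
# Project TD (MP_277c78_nt): the two comparisons
-/

set_option autoImplicit false

namespace Pool.Agent.Helper5.TP

open Finset Filter Topology

/-- the fourth root -/
theorem quart {l : ℝ} (hl : 0 ≤ l) : (l ^ (1 / 4 : ℝ)) ^ 4 = l := by
  rw [← Real.rpow_natCast, ← Real.rpow_mul hl]
  norm_num

theorem pars {l L q : ℝ} (hq : 2 ≤ q) (hql : q ^ 4 = l) (h1 : l - q ≤ L) :
    0 < L ∧ q ^ 4 / 2 ≤ L ∧ q ^ 6 / 4 ≤ L * √L := by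
  have hq0 : 0 < q := by linarith
  have h8 : 8 ≤ q ^ 3 := by
    have := pow_le_pow_left₀ (by norm_num : (0 : ℝ) ≤ 2) hq 3
    norm_num at this
    exact this
  have h2 : q ≤ q ^ 4 / 2 := by
    have : q * 8 ≤ q * q ^ 3 := mul_le_mul_of_nonneg_left h8 hq0.le
    have e : q * q ^ 3 = q ^ 4 := by ring
    rw [e] at this
    linarith
  have h3 : q ^ 4 / 2 ≤ L := by linarith
  have hL : 0 < L := lt_of_lt_of_le (by positivity) h3
  have h4 : q ^ 2 / 2 ≤ √L := by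
    apply Real.le_sqrt_of_sq_le
    have e : (q ^ 2 / 2) ^ 2 = q ^ 4 / 4 := by ring
    rw [e]
    have : 0 ≤ q ^ 4 := by positivity
    linarith
  refine ⟨hL, h3, ?_⟩
  calc q ^ 6 / 4 = (q ^ 4 / 2) * (q ^ 2 / 2) := by ring
    _ ≤ L * √L := mul_le_mul h3 h4 (by positivity) hL.le

theorem up {t : ℕ → ℝ} {C : ℝ} (ht0 : ∀ k, 0 ≤ t k) (ht : ∀ k : ℕ, t k ≤ C / ((k : ℝ) + 1))
    {c l1 : ℝ} (hc : 0 < c) (hlow : ∀ l : ℝ, l1 ≤ l → c / (8 * l) ≤ Real.exp (-l) * Phi t l)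
    {ε : ℝ} (hε : 0 < ε) :
    ∃ l0 : ℝ, ∀ l : ℝ, l0 ≤ l → ∀ L : ℝ, l - l ^ (1 / 4 : ℝ) ≤ L → L ≤ l →
      Real.exp (-L) * Phi t L ≤ (1 + ε) * (Real.exp (-l) * Phi t l) := by
  set Q : ℝ := max 2 (32 * (C ^ 2 + 1) / (ε * c)) with hQ
  refine ⟨max l1 (Q ^ 4), fun l hl L h1 h2 => ?_⟩
  have hQ2 : 2 ≤ Q := le_max_left _ _
  have hl0 : 0 ≤ l := le_trans (by positivity) ((le_max_right l1 (Q ^ 4)).trans hl)
  set q := l ^ (1 / 4 : ℝ) with hq
  have hql : q ^ 4 = l := quart hl0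
  have hq0 : 0 ≤ q := Real.rpow_nonneg hl0 _
  have hqQ : Q ≤ q := by
    have : Q ^ 4 ≤ q ^ 4 := by
      rw [hql]
      exact (le_max_right l1 (Q ^ 4)).trans hl
    exact le_of_pow_le_pow_left₀ (by norm_num) hq0 this
  have hq2 : 2 ≤ q := hQ2.trans hqQ
  have hqp : 0 < q := by linarith
  obtain ⟨hL, hL1, hL2⟩ := pars hq2 hql h1
  have h3 := psi_var ht0 ht hL h2
  have h4 := hlow l ((le_max_left _ _).trans hl)
  have h5 : (C ^ 2 + 1) * ((l - L) / (L * √L)) ≤ ε * (c / (8 * l)) := by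
    have h6 : (l - L) / (L * √L) ≤ q / (q ^ 6 / 4) := by
      apply div_le_div₀ hqp.le (by linarith) (by positivity) hL2
    have h7 : (C ^ 2 + 1) * (q / (q ^ 6 / 4)) ≤ ε * (c / (8 * l)) := by
      have h8 : 32 * (C ^ 2 + 1) ≤ q * (ε * c) := by
        have h9 : 32 * (C ^ 2 + 1) / (ε * c) ≤ q := (le_max_right _ _).trans hqQ
        rwa [div_le_iff₀ (by positivity)] at h9
      rw [← hql]
      have e1 : (C ^ 2 + 1) * (q / (q ^ 6 / 4)) = (32 * (C ^ 2 + 1)) / (8 * q ^ 5) := by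
        field_simp
        try ring
      have e2 : ε * (c / (8 * q ^ 4)) = (q * (ε * c)) / (8 * q ^ 5) := by
        field_simp
      rw [e1, e2]
      exact div_le_div_of_nonneg_right h8 (by positivity)
    exact (mul_le_mul_of_nonneg_left h6 (by positivity)).trans h7
  have h10 := mul_le_mul_of_nonneg_left h4 hε.le
  linarith

theorem low {t : ℕ → ℝ} {C : ℝ} (ht0 : ∀ k, 0 ≤ t k) (ht : ∀ k : ℕ, t k ≤ C / ((k : ℝ) + 1))
    (hta : Antitone t) {c l1 : ℝ} (hc : 0 < c)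
    (hlow : ∀ l : ℝ, l1 ≤ l → c / (8 * l) ≤ Real.exp (-l) * Phi t l) {ε : ℝ} (hε : 0 < ε) :
    ∃ l0 : ℝ, ∀ l : ℝ, l0 ≤ l → ∀ L : ℝ, l - l ^ (1 / 4 : ℝ) ≤ L → L ≤ l →
      ∀ J : ℕ, (J : ℝ) ≤ l ^ (1 / 4 : ℝ) →
      (1 - ε) * (Real.exp (-l) * Phi t l) ≤
        Real.exp (-L) * ∑ k ∈ range (⌊2 * L⌋₊ + 1), t (k + J) * L ^ k / (k.factorial : ℝ) := by
  set Q : ℝ := max 2 (64 * (C ^ 2 + 1) / (ε * c)) with hQ
  refine ⟨max l1 (Q ^ 4), fun l hl L h1 h2 J hJ => ?_⟩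
  have hQ2 : 2 ≤ Q := le_max_left _ _
  have hl0 : 0 ≤ l := le_trans (by positivity) ((le_max_right l1 (Q ^ 4)).trans hl)
  set q := l ^ (1 / 4 : ℝ) with hq
  have hql : q ^ 4 = l := quart hl0
  have hq0 : 0 ≤ q := Real.rpow_nonneg hl0 _
  have hqQ : Q ≤ q := by
    have : Q ^ 4 ≤ q ^ 4 := by
      rw [hql]
      exact (le_max_right l1 (Q ^ 4)).trans hl
    exact le_of_pow_le_pow_left₀ (by norm_num) hq0 this
  have hq2 : 2 ≤ q := hQ2.trans hqQ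
  have hqp : 0 < q := by linarith
  obtain ⟨hC, _⟩ := abs_le_C ht0 ht
  obtain ⟨hL, hL1, hL2⟩ := pars hq2 hql h1
  have h3 := psi_anti ht0 ht hta hL.le h2
  have h4 := hlow l ((le_max_left _ _).trans hl)
  have h5 := head_ge ht0 ht hL J
  have h6 := shift_J (C := C) hL J ht0 ht
  have h7 : Phi t L - J * ((C ^ 2 + 1) * (Real.exp L / (L * √L))) - C * (Real.exp L / L ^ 2) ≤
      ∑ k ∈ range (⌊2 * L⌋₊ + 1), t (k + J) * L ^ k / (k.factorial : ℝ) := by linarith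
  have h8 := mul_le_mul_of_nonneg_left h7 (Real.exp_pos (-L)).le
  have e1 : Real.exp (-L) * Real.exp L = 1 := by
    rw [← Real.exp_add, neg_add_cancel, Real.exp_zero]
  have e2 : Real.exp (-L) * (Phi t L - J * ((C ^ 2 + 1) * (Real.exp L / (L * √L))) -
      C * (Real.exp L / L ^ 2)) = Real.exp (-L) * Phi t L -
      (J * ((C ^ 2 + 1) * ((Real.exp (-L) * Real.exp L) / (L * √L))) +
        C * ((Real.exp (-L) * Real.exp L) / L ^ 2)) := by ring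
  rw [e2, e1] at h8
  have hsL : 0 < √L := Real.sqrt_pos.2 hL
  have h9 : J * ((C ^ 2 + 1) * (1 / (L * √L))) ≤ 4 * (C ^ 2 + 1) / q ^ 5 := by
    have h10 : 1 / (L * √L) ≤ 1 / (q ^ 6 / 4) := one_div_le_one_div_of_le (by positivity) hL2
    calc (J : ℝ) * ((C ^ 2 + 1) * (1 / (L * √L))) ≤ q * ((C ^ 2 + 1) * (1 / (q ^ 6 / 4))) := by
          apply mul_le_mul hJ _ (by positivity) hqp.le
          exact mul_le_mul_of_nonneg_left h10 (by positivity)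
      _ = 4 * (C ^ 2 + 1) / q ^ 5 := by
          field_simp
          try ring
  have h11 : C * (1 / L ^ 2) ≤ 4 * (C ^ 2 + 1) / q ^ 5 := by
    have h12 : 1 / L ^ 2 ≤ 1 / (q ^ 4 / 2) ^ 2 :=
      one_div_le_one_div_of_le (by positivity) (pow_le_pow_left₀ (by positivity) hL1 2)
    have h13 : C ≤ C ^ 2 + 1 := by nlinarith [sq_nonneg (C - 1)]
    calc C * (1 / L ^ 2) ≤ (C ^ 2 + 1) * (1 / (q ^ 4 / 2) ^ 2) :=
          mul_le_mul h13 h12 (by positivity) (by positivity)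
      _ = 4 * (C ^ 2 + 1) / q ^ 8 := by
          field_simp
          try ring
      _ ≤ 4 * (C ^ 2 + 1) / q ^ 5 := by
          apply div_le_div_of_nonneg_left (by positivity) (by positivity)
          exact pow_le_pow_right₀ (by linarith) (by norm_num)
  have h14 : 4 * (C ^ 2 + 1) / q ^ 5 + 4 * (C ^ 2 + 1) / q ^ 5 ≤ ε * (c / (8 * l)) := by
    have h15 : 64 * (C ^ 2 + 1) ≤ q * (ε * c) := by
      have h9 : 64 * (C ^ 2 + 1) / (ε * c) ≤ q := (le_max_right _ _).trans hqQ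
      rwa [div_le_iff₀ (by positivity)] at h9
    rw [← hql]
    have e1 : 4 * (C ^ 2 + 1) / q ^ 5 + 4 * (C ^ 2 + 1) / q ^ 5 = (64 * (C ^ 2 + 1)) / (8 * q ^ 5) := by
      field_simp
      try ring
    have e2 : ε * (c / (8 * q ^ 4)) = (q * (ε * c)) / (8 * q ^ 5) := by
      field_simp
    rw [e1, e2]
    exact div_le_div_of_nonneg_right h15 (by positivity)
  have h16 := mul_le_mul_of_nonneg_left h4 hε.le
  linarith

end Pool.Agent.Helper5.TP
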