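import Pool.Agent.Helper26.TE.Basic
import Pool.Agent.Helper5.TP.Two

/-!
# Project TE (MP_277c78_nt): `pois_up` and `pois_low` for a sequence with `t k ≤ C / (k + 1)`
-/

set_option autoImplicit false

namespace Pool.Agent.Helper5.TP

open Finset Filter Topology
open Pool.Agent.Helper26.TE

theorem pois_up' {t : ℕ → ℝ} (ht0 : ∀ k, 0 ≤ t k) (ht1 : ∀ k, t k ≤ 1) (hta : Antitone t) {c : ℝ}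
    (hc : 0 < c) {k0 : ℕ} (htc : ∀ k, k0 ≤ k → c / (k : ℝ) ≤ t k) {C : ℝ}
    (hC : ∀ k : ℕ, t k ≤ C / ((k : ℝ) + 1)) {ε : ℝ} (hε : 0 < ε) :
    ∃ l0 : ℝ, ∀ l : ℝ, l0 ≤ l → ∀ L : ℝ, l - l ^ (1 / 4 : ℝ) ≤ L → L ≤ l →
      Real.exp (-L) * GG t L ≤ (1 + ε) * (Real.exp (-l) * GG t l) := by
  obtain ⟨l1, hl1⟩ := GG_low ht0 ht1 hta hc htc
  exact up ht0 hC hc hl1 hε

theorem pois_low' {t : ℕ → ℝ} (ht0 : ∀ k, 0 ≤ t k) (ht1 : ∀ k, t k ≤ 1) (hta : Antitone t) {c : ℝ}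
    (hc : 0 < c) {k0 : ℕ} (htc : ∀ k, k0 ≤ k → c / (k : ℝ) ≤ t k) {C : ℝ}
    (hC : ∀ k : ℕ, t k ≤ C / ((k : ℝ) + 1)) {ε : ℝ} (hε : 0 < ε) :
    ∃ l0 : ℝ, ∀ l : ℝ, l0 ≤ l → ∀ L : ℝ, l - l ^ (1 / 4 : ℝ) ≤ L → L ≤ l →
      ∀ J : ℕ, (J : ℝ) ≤ l ^ (1 / 4 : ℝ) →
      (1 - ε) * (Real.exp (-l) * GG t l) ≤
        Real.exp (-L) * ∑ k ∈ range (⌊2 * L⌋₊ + 1), t (k + J) * L ^ k / (k.factorial : ℝ) := by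
  obtain ⟨l1, hl1⟩ := GG_low ht0 ht1 hta hc htc
  exact low ht0 hC hta hc hl1 hε

end Pool.Agent.Helper5.TP
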